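import Pool.Agent.H38.PZ.Defs

/-! # Local solvability: `ζ ^ (8 m) ≡ 16 ^ m (mod o)` for odd `o`, and powers modulo `2 ^ j` -/

set_option autoImplicit false

namespace Pool.Agent.H40.PZ

open Pool.Agent.H38.PZ

/-- CRT for two coprime moduli, for `x ↦ x ^ n` -/
theorem crt_pow (n : ℕ) {a b s t x y : ℤ} (hab : IsCoprime a b) (hx : a ∣ x ^ n - s)
    (hy : b ∣ y ^ n - t) : ∃ z : ℤ, a ∣ z ^ n - s ∧ b ∣ z ^ n - t := by
  obtain ⟨u, v, huv⟩ := hab
  refine ⟨y * (u * a) + x * (v * b), ?_, ?_⟩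
  · have h1 : a ∣ (y * (u * a) + x * (v * b)) - x :=
      ⟨(y - x) * u, by linear_combination x * huv⟩
    have h2 := h1.trans (sub_dvd_pow_sub_pow _ _ n)
    have h3 := dvd_add h2 hx
    rwa [sub_add_sub_cancel] at h3
  · have h1 : b ∣ (y * (u * a) + x * (v * b)) - y :=
      ⟨(x - y) * v, by linear_combination y * huv⟩
    have h2 := h1.trans (sub_dvd_pow_sub_pow _ _ n)
    have h3 := dvd_add h2 hy
    rwa [sub_add_sub_cancel] at h3

/-- modulo an odd prime -/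
theorem eight_prime (p : ℕ) [hp : Fact p.Prime] (hp2 : p ≠ 2) : ∃ x : ℤ, (p : ℤ) ∣ x ^ 8 - 16 := by
  have key : ∃ x : ZMod p, x ^ 8 = 16 := by
    have hodd : p % 2 = 1 := (hp.out.eq_two_or_odd).resolve_left hp2
    have h8 : p % 8 = 1 ∨ p % 8 = 3 ∨ p % 8 = 5 ∨ p % 8 = 7 := by omega
    have c1 : p % 8 = 1 ∨ p % 8 = 7 → ∃ x : ZMod p, x ^ 8 = 16 := by
      intro h
      obtain ⟨x, hx⟩ := (ZMod.exists_sq_eq_two_iff hp2).2 h
      exact ⟨x, by
        calc x ^ 8 = (x * x) ^ 4 := by ring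
          _ = 16 := by rw [← hx]; norm_num⟩
    rcases h8 with h | h | h | h
    · exact c1 (Or.inl h)
    · obtain ⟨x, hx⟩ := (ZMod.exists_sq_eq_neg_two_iff hp2).2 (Or.inr h)
      exact ⟨x, by
        calc x ^ 8 = (x * x) ^ 4 := by ring
          _ = 16 := by rw [← hx]; norm_num⟩
    · obtain ⟨x, hx⟩ := (ZMod.exists_sq_eq_neg_one_iff (p := p)).2 (by omega)
      exact ⟨1 + x, by
        have hx' : x * x = -1 := hx.symm
        calc (1 + x) ^ 8 = ((1 + 2 * x + x * x) * (1 + 2 * x + x * x)) ^ 2 := by ring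
          _ = ((1 + 2 * x + -1) * (1 + 2 * x + -1)) ^ 2 := by rw [hx']
          _ = 16 * (x * x) ^ 2 := by ring
          _ = 16 := by rw [hx']; norm_num⟩
    · exact c1 (Or.inr h)
  obtain ⟨x, hx⟩ := key
  obtain ⟨y, rfl⟩ := ZMod.intCast_surjective x
  refine ⟨y, (ZMod.intCast_zmod_eq_zero_iff_dvd _ p).1 ?_⟩
  push_cast
  rw [hx, sub_self]

/-- modulo a power of an odd prime -/
theorem eight_prime_pow (p : ℕ) (hp : p.Prime) (hp2 : p ≠ 2) (k : ℕ) :
    ∃ x : ℤ, (p : ℤ) ∣ x ^ 8 - 16 ∧ (p : ℤ) ^ k ∣ x ^ 8 - 16 := by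
  have : Fact p.Prime := ⟨hp⟩
  have hpi : Prime (p : ℤ) := Nat.prime_iff_prime_int.1 hp
  induction k with
  | zero =>
    obtain ⟨x, hx⟩ := eight_prime p hp2
    exact ⟨x, hx, by simp⟩
  | succ k ih =>
    rcases Nat.eq_zero_or_pos k with rfl | hk
    · obtain ⟨x, hx⟩ := eight_prime p hp2
      exact ⟨x, hx, by simpa using hx⟩
    · obtain ⟨x, hx, hxk⟩ := ih
      have hp2' : ¬ (p : ℤ) ∣ 2 := by
        intro h
        have h1 : p ∣ 2 := by exact_mod_cast h
        exact hp2 ((Nat.prime_dvd_prime_iff_eq hp Nat.prime_two).1 h1)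
      have hpx : ¬ (p : ℤ) ∣ x := by
        intro h
        have h1 : (p : ℤ) ∣ x ^ 8 := dvd_pow h (by norm_num)
        have h2 : (p : ℤ) ∣ 16 := by
          have := dvd_sub h1 hx
          simpa using this
        have h3 : (p : ℤ) ∣ 2 ^ 4 := by norm_num; exact h2
        exact hp2' (hpi.dvd_of_dvd_pow h3)
      have hpd : ¬ (p : ℤ) ∣ 8 * x ^ 7 := by
        intro h
        rcases hpi.dvd_or_dvd h with h | h
        · have h3 : (p : ℤ) ∣ 2 ^ 3 := by norm_num; exact h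
          exact hp2' (hpi.dvd_of_dvd_pow h3)
        · exact hpx (hpi.dvd_of_dvd_pow h)
      obtain ⟨u, v, huv⟩ := (hpi.coprime_iff_not_dvd.2 hpd).symm
      obtain ⟨w, hw⟩ := hxk
      -- `t = - w u`
      have hexp : ∀ d : ℤ, (x + d) ^ 8 - 16 = (x ^ 8 - 16) + 8 * x ^ 7 * d + d ^ 2 * (28 * x ^ 6
          + 56 * x ^ 5 * d + 70 * x ^ 4 * d ^ 2 + 56 * x ^ 3 * d ^ 3 + 28 * x ^ 2 * d ^ 4
          + 8 * x * d ^ 5 + d ^ 6) := fun d => by ring
      have hkk : (p : ℤ) ^ (k + 1) ∣ ((p : ℤ) ^ k) ^ 2 := by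
        rw [← pow_mul]
        exact pow_dvd_pow _ (by omega)
      have hmain : (p : ℤ) ^ (k + 1) ∣ (x + (-(w * u)) * (p : ℤ) ^ k) ^ 8 - 16 := by
        rw [hexp, hw]
        refine dvd_add ?_ ?_
        · refine ⟨w * v, ?_⟩
          rw [pow_succ]
          linear_combination (-(w * (p : ℤ) ^ k)) * huv
        · rw [mul_pow]
          exact Dvd.dvd.mul_right (Dvd.dvd.mul_left hkk _) _
      refine ⟨_, ?_, hmain⟩
      exact (dvd_pow_self (p : ℤ) (Nat.succ_ne_zero k)).trans hmain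

/-- modulo an odd number -/
theorem eight_odd (o : ℕ) : Odd o → ∃ x : ℤ, (o : ℤ) ∣ x ^ 8 - 16 := by
  induction o using Nat.recOnPrimeCoprime with
  | zero => intro h; exact absurd h (by decide)
  | prime_pow p k hp =>
    intro h
    rcases Nat.eq_zero_or_pos k with rfl | hk
    · exact ⟨0, by simp⟩
    · have hp2 : p ≠ 2 := by
        rintro rfl
        rw [Nat.odd_pow_iff hk.ne'] at h
        exact absurd h (by decide)
      obtain ⟨x, -, hx⟩ := eight_prime_pow p hp hp2 k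
      exact ⟨x, by exact_mod_cast hx⟩
  | coprime a b ha hb hab iha ihb =>
    intro h
    obtain ⟨h1, h2⟩ := Nat.odd_mul.1 h
    obtain ⟨x, hx⟩ := iha h1
    obtain ⟨y, hy⟩ := ihb h2
    have hab' : IsCoprime (a : ℤ) (b : ℤ) := Nat.isCoprime_iff_coprime.2 hab
    obtain ⟨z, hz1, hz2⟩ := crt_pow 8 hab' hx hy
    refine ⟨z, ?_⟩
    push_cast
    exact hab'.mul_dvd hz1 hz2

/-- powers modulo `2 ^ j` -/
theorem two_pow_lift (n : ℕ) (hn : n ≠ 0) (hne : Even n) (u : ℤ)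
    (hu : (2 : ℤ) ^ (padicValNat 2 n + 2) ∣ u - 1) (j : ℕ) :
    ∃ y : ℤ, Odd y ∧ (2 : ℤ) ^ j ∣ y ^ n - u := by
  induction j with
  | zero => exact ⟨1, odd_one, by simp⟩
  | succ j ih =>
    rcases Nat.lt_or_ge j (padicValNat 2 n + 2) with hj | hj
    · refine ⟨1, odd_one, ?_⟩
      rw [one_pow, ← dvd_neg, neg_sub]
      exact (pow_dvd_pow _ (by omega)).trans hu
    · obtain ⟨y, hy, w, hw⟩ := ih
      rcases Int.even_or_odd w with hwe | hwo
      · obtain ⟨w', rfl⟩ := hwe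
        exact ⟨y, hy, w', by rw [hw, pow_succ]; ring⟩
      · -- multiply `y` by `1 + 2 ^ (j - v)`
        set v := padicValNat 2 n with hv
        obtain ⟨e, he⟩ : ∃ e, j = v + (e + 2) := ⟨j - v - 2, by omega⟩
        have h1 : padicValNat 2 ((1 + 2 ^ (e + 2)) ^ n - 1 ^ n) + 1 =
            padicValNat 2 ((1 + 2 ^ (e + 2)) + 1) + padicValNat 2 ((1 + 2 ^ (e + 2)) - 1) +
              padicValNat 2 n := by
          refine padicValNat.pow_two_sub_pow ?_ ?_ ?_ hn hne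
          · have : 0 < 2 ^ (e + 2) := by positivity
            omega
          · rw [Nat.add_sub_cancel_left]
            exact dvd_pow_self 2 (by omega)
          · rw [pow_succ]
            omega
        have h2 : padicValNat 2 ((1 + 2 ^ (e + 2)) + 1) = 1 := by
          have h3 : (1 + 2 ^ (e + 2)) + 1 = 2 * (2 ^ (e + 1) + 1) := by ring
          rw [h3, padicValNat.mul (by norm_num) (by positivity), padicValNat_self,
            padicValNat.eq_zero_of_not_dvd]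
          rw [pow_succ]
          omega
        have h3 : padicValNat 2 ((1 + 2 ^ (e + 2)) - 1) = e + 2 := by
          rw [Nat.add_sub_cancel_left, padicValNat.prime_pow]
        rw [h2, h3, one_pow] at h1
        have h4 : padicValNat 2 ((1 + 2 ^ (e + 2)) ^ n - 1) = j := by omega
        have hne0 : (1 + 2 ^ (e + 2)) ^ n - 1 ≠ 0 := by
          have h5 : 1 < (1 + 2 ^ (e + 2)) ^ n := by
            refine Nat.one_lt_pow hn ?_
            have : 0 < 2 ^ (e + 2) := by positivity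
            omega
          omega
        obtain ⟨k, hk, hko⟩ : ∃ k : ℕ, (1 + 2 ^ (e + 2)) ^ n - 1 = 2 ^ j * k ∧ ¬ 2 ∣ k := by
          have h6 : 2 ^ j ∣ (1 + 2 ^ (e + 2)) ^ n - 1 := by
            rw [← h4]
            exact pow_padicValNat_dvd
          obtain ⟨k, hk⟩ := h6
          refine ⟨k, hk, ?_⟩
          rintro ⟨k', rfl⟩
          have h7 : 2 ^ (padicValNat 2 ((1 + 2 ^ (e + 2)) ^ n - 1) + 1) ∣ (1 + 2 ^ (e + 2)) ^ n - 1 := by
            rw [h4, hk]
            exact ⟨k', by rw [pow_succ]; ring⟩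
          exact pow_succ_padicValNat_not_dvd hne0 h7
        have hkZ : ((1 : ℤ) + 2 ^ (e + 2)) ^ n = 1 + 2 ^ j * k := by
          have h8 : (1 + 2 ^ (e + 2)) ^ n = 1 + 2 ^ j * k := by
            have h9 : 1 ≤ (1 + 2 ^ (e + 2)) ^ n := Nat.one_le_pow _ _ (by positivity)
            omega
          exact_mod_cast h8
        have hkodd : Odd (k : ℤ) := by
          rw [Int.odd_coe_nat]
          exact Nat.not_even_iff_odd.1 (fun h => hko h.two_dvd)
        have hyn : Odd (y ^ n * k) := (hy.pow).mul hkodd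
        obtain ⟨s, hs⟩ := hwo.add_odd hyn
        refine ⟨y * (1 + 2 ^ (e + 2)), ?_, s, ?_⟩
        · refine hy.mul ?_
          refine ⟨2 ^ (e + 1), by ring⟩
        · rw [mul_pow, hkZ, pow_succ]
          linear_combination hw + (2 : ℤ) ^ j * hs

/-- the local solvability -/
theorem zeta (m b : ℕ) (hm : 0 < m)
    (hb : (2 : ℤ) ^ (padicValNat 2 (8 * m) + 2) ∣ 2 ^ (4 * m) + (b : ℤ) - 1) :
    S_zeta (8 * m) (2 ^ (4 * m)) b (2 ^ (padicValNat 2 (8 * m) + 2)) := by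
  intro j o ho f hf
  push_cast at hf ⊢
  obtain ⟨x, hx⟩ := eight_odd o ho
  have hx' : (o : ℤ) ∣ x ^ (8 * m) - 2 ^ (4 * m) := by
    rw [pow_mul, pow_mul]
    exact hx.trans (by
      have := sub_dvd_pow_sub_pow (x ^ 8) (2 ^ 4 : ℤ) m
      norm_num at this ⊢
      exact this)
  have hu : (2 : ℤ) ^ (padicValNat 2 (8 * m) + 2) ∣ (2 ^ (4 * m) + b * f) - 1 := by
    have h1 : ((2 : ℤ) ^ (4 * m) + b * f) - 1 = (2 ^ (4 * m) + (b : ℤ) - 1) + b * (f - 1) := by ring
    rw [h1]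
    exact dvd_add hb (Dvd.dvd.mul_left hf _)
  obtain ⟨y, -, hy⟩ := two_pow_lift (8 * m) (by omega) ⟨4 * m, by ring⟩ _ hu j
  have hcop : IsCoprime (o : ℤ) ((2 : ℤ) ^ j) := by
    have h1 : IsCoprime (o : ℤ) ((2 : ℕ) : ℤ) := Nat.isCoprime_iff_coprime.2
      (Nat.coprime_two_right.2 ho)
    exact IsCoprime.pow_right (by exact_mod_cast h1)
  exact crt_pow (8 * m) hcop hx' hy

end Pool.Agent.H40.PZ
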