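import Pool.Agent.H40.PZ.Zeta

/-! # Local solvability for `A = 2 ^ (4 m + 8 m k)` -/

set_option autoImplicit false

namespace Pool.Agent.H40.PZ

open Pool.Agent.H38.PZ

/-- the local solvability, with an additional perfect power in `A` -/
theorem zeta2 (m b k : ℕ) (hm : 0 < m)
    (hb : (2 : ℤ) ^ (padicValNat 2 (8 * m) + 2) ∣ 2 ^ (4 * m + 8 * m * k) + (b : ℤ) - 1) :
    S_zeta (8 * m) (2 ^ (4 * m + 8 * m * k)) b (2 ^ (padicValNat 2 (8 * m) + 2)) := by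
  intro j o ho f hf
  push_cast at hf ⊢
  obtain ⟨x, hx⟩ := eight_odd o ho
  have hx' : (o : ℤ) ∣ (2 ^ k * x) ^ (8 * m) - 2 ^ (4 * m + 8 * m * k) := by
    have h1 : (o : ℤ) ∣ x ^ (8 * m) - 2 ^ (4 * m) := by
      rw [pow_mul, pow_mul]
      exact hx.trans (by
        have := sub_dvd_pow_sub_pow (x ^ 8) (2 ^ 4 : ℤ) m
        norm_num at this ⊢
        exact this)
    have h2 : (2 ^ k * x) ^ (8 * m) - (2 : ℤ) ^ (4 * m + 8 * m * k) =
        2 ^ (8 * m * k) * (x ^ (8 * m) - 2 ^ (4 * m)) := by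
      rw [mul_pow, ← pow_mul, pow_add]
      ring
    rw [h2]
    exact Dvd.dvd.mul_left h1 _
  have hu : (2 : ℤ) ^ (padicValNat 2 (8 * m) + 2) ∣ (2 ^ (4 * m + 8 * m * k) + b * f) - 1 := by
    have h1 : ((2 : ℤ) ^ (4 * m + 8 * m * k) + b * f) - 1 =
        (2 ^ (4 * m + 8 * m * k) + (b : ℤ) - 1) + b * (f - 1) := by ring
    rw [h1]
    exact dvd_add hb (Dvd.dvd.mul_left hf _)
  obtain ⟨y, -, hy⟩ := two_pow_lift (8 * m) (by omega) ⟨4 * m, by ring⟩ _ hu j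
  have hcop : IsCoprime (o : ℤ) ((2 : ℤ) ^ j) := by
    have h1 : IsCoprime (o : ℤ) ((2 : ℕ) : ℤ) := Nat.isCoprime_iff_coprime.2
      (Nat.coprime_two_right.2 ho)
    exact IsCoprime.pow_right (by exact_mod_cast h1)
  exact crt_pow (8 * m) hcop hx' hy

end Pool.Agent.H40.PZ
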