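import Pool.Agent.H38.PZ.Defs

/-! # The combinatorial reduction for `A x + b y = w z ^ n` over the positive integers -/

set_option autoImplicit false

namespace Pool.Agent.H40.PZ

open Filter
open Pool.Agent.H38.PZ

theorem p1_one (J : ℕ) : P1 J 1 := ⟨one_pos, by simp⟩

theorem p1_mul {J : ℕ} {a b : ℤ} (ha : P1 J a) (hb : P1 J b) : P1 J (a * b) := by
  refine ⟨mul_pos ha.1 hb.1, ?_⟩
  have h : a * b - 1 = (a - 1) * b + (b - 1) := by ring
  rw [h]
  exact dvd_add (Dvd.dvd.mul_right ha.2 b) hb.2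

theorem p1_pow {J : ℕ} {a : ℤ} (ha : P1 J a) (n : ℕ) : P1 J (a ^ n) := by
  induction n with
  | zero => rw [pow_zero]; exact p1_one J
  | succ n ih => rw [pow_succ]; exact p1_mul ih ha

section ultra
variable {α : Type*}

theorem ulim (U : Ultrafilter α) {κ : Type*} [Finite κ] (φ : α → κ) : ∃ i, ∀ᶠ a in U, φ a = i := by
  by_contra hcon
  push Not at hcon
  have h1 : ∀ i, ∀ᶠ a in (U : Filter α), ¬ φ a = i := hcon
  have h2 : ∀ᶠ a in (U : Filter α), ∀ i, ¬ φ a = i := eventually_all.2 h1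
  obtain ⟨a, ha⟩ := h2.exists
  exact ha (φ a) rfl

theorem ulim_finset (U : Ultrafilter α) {β : Type*} (F : Finset β) (P : β → α → Prop)
    (h : ∀ a, ∃ f ∈ F, P f a) : ∃ f ∈ F, ∀ᶠ a in U, P f a := by
  by_contra hcon
  push Not at hcon
  have h1 : ∀ f ∈ F, ∀ᶠ a in (U : Filter α), ¬ P f a := hcon
  have h2 : ∀ᶠ a in (U : Filter α), ∀ f ∈ F, ¬ P f a := (eventually_all_finset F).2 h1
  obtain ⟨a, ha⟩ := h2.exists
  obtain ⟨f, hf, hP⟩ := h a
  exact ha f hf hP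

end ultra

/-- the limit colouring -/
theorem limcol (J : ℕ) {κ : Type} [Finite κ] (k : ℤ → κ) : ∃ (k' : ℤ → κ) (R : Finset κ), R.Nonempty ∧
    (∀ H : Finset ℤ, ∃ g, P1 J g ∧ ∀ h ∈ H, k (g * h) = k' h) ∧
    (∀ i ∈ R, ∃ F : Finset ℤ, (∀ f ∈ F, P1 J f) ∧ ∀ h, P1 J h → ∃ f ∈ F, k' (f * h) = i) ∧
    (∀ H : Finset ℤ, (∀ h ∈ H, P1 J h) → ∃ g, P1 J g ∧ ∀ h ∈ H, k (g * h) ∈ R) := by
  classical
  have : Fintype κ := Fintype.ofFinite κ
  let good : Finset κ → Prop := fun R => ∀ H : Finset ℤ, (∀ h ∈ H, P1 J h) →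
    ∃ g, P1 J g ∧ ∀ h ∈ H, k (g * h) ∈ R
  have huniv : good Finset.univ := fun H _ => ⟨1, (p1_one J), fun h _ => Finset.mem_univ _⟩
  obtain ⟨R, hR, hmin⟩ := (wellFounded_lt (α := Finset κ)).has_min {R | good R} ⟨_, huniv⟩
  have hRne : R.Nonempty := by
    obtain ⟨g, -, hg⟩ := hR {1} (by simp [(p1_one J)])
    exact ⟨_, hg 1 (Finset.mem_singleton_self _)⟩
  have hgood : ∀ H : Finset ℤ, ∃ g, P1 J g ∧ ∀ h ∈ H, P1 J h → k (g * h) ∈ R := by
    intro H
    obtain ⟨g, hg, hgH⟩ := hR (H.filter (P1 J)) (fun h hh => (Finset.mem_filter.1 hh).2)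
    exact ⟨g, hg, fun h hh hp => hgH h (Finset.mem_filter.2 ⟨hh, hp⟩)⟩
  choose G hG1 hG2 using hgood
  let V : Ultrafilter (Finset ℤ) := Ultrafilter.of atTop
  have hV : ∀ H : Finset ℤ, ∀ᶠ H' in (V : Filter (Finset ℤ)), H ⊆ H' := fun H =>
    Ultrafilter.of_le _ (eventually_ge_atTop H)
  choose k' hk' using fun h : ℤ => ulim V (fun H => k (G H * h))
  have hk'F : ∀ H : Finset ℤ, ∀ᶠ H' in (V : Filter (Finset ℤ)), ∀ h ∈ H, k (G H' * h) = k' h := fun H =>
    (eventually_all_finset H).2 (fun h _ => hk' h)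
  refine ⟨k', R, hRne, ?_, ?_, hR⟩
  · intro H
    obtain ⟨H', hH'⟩ := (hk'F H).exists
    exact ⟨G H', hG1 H', hH'⟩
  · intro i hi
    have hng : ¬ good (R.erase i) := fun h => hmin _ h (Finset.erase_ssubset hi)
    have hng' : ∃ F : Finset ℤ, (∀ f ∈ F, P1 J f) ∧ ∀ g, P1 J g → ∃ f ∈ F, k (g * f) ∉ R.erase i := by
      by_contra hcon
      apply hng
      intro H hH
      by_contra hcon2
      apply hcon
      refine ⟨H, hH, fun g hg => ?_⟩
      by_contra hcon3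
      apply hcon2
      refine ⟨g, hg, fun h hh => ?_⟩
      by_contra hcon4
      exact hcon3 ⟨h, hh, hcon4⟩
    obtain ⟨F, hF, hF2⟩ := hng'
    refine ⟨F, hF, fun h hh => ?_⟩
    obtain ⟨H', hH1, hH2⟩ := ((hV (F.image (· * h))).and (hk'F (F.image (· * h)))).exists
    obtain ⟨f, hf, hf2⟩ := hF2 (G H' * h) (p1_mul (hG1 H') hh)
    have hmem : f * h ∈ F.image (· * h) := Finset.mem_image_of_mem (· * h) hf
    have h1 : k (G H' * (f * h)) ∈ R := hG2 H' (f * h) (hH1 hmem) (p1_mul (hF f hf) hh)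
    have h2 : G H' * h * f = G H' * (f * h) := by ring
    rw [h2] at hf2
    have h3 : k (G H' * (f * h)) = i := by
      by_contra hne
      exact hf2 (Finset.mem_erase.2 ⟨hne, h1⟩)
    exact ⟨f, hf, by rw [← hH2 _ hmem, h3]⟩

/-- the intermediate statement -/
def SFree (n A b J : ℕ) : Prop := ∀ (κ : Type) [Finite κ] (c : ℤ → κ), ∃ X Y W ρ : ℤ,
  P1 J X ∧ P1 J Y ∧ P1 J W ∧ 0 < ρ ∧ c X = c Y ∧ c X = c W ∧ (A : ℤ) * X + b * Y = W * ρ ^ n

/-- STEP B -/
theorem free_of_core (n A b J : ℕ) (hcore : S_core n A b J) : SFree n A b J := by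
  intro κ _ c
  obtain ⟨k', R, ⟨i, hi⟩, ha, hb, -⟩ := limcol J c
  obtain ⟨F, hF, hF2⟩ := hb i hi
  obtain ⟨X, hX, Y, hY, W, hW, ρ, hρ, hXY⟩ := hcore {h | P1 J h ∧ k' h = i}
    ⟨fun x hx => hx.1, F, hF, fun h hh => by
      obtain ⟨f, hf, hf2⟩ := hF2 h hh
      exact ⟨f, hf, p1_mul (hF f hf) hh, hf2⟩⟩
  classical
  obtain ⟨g, hg, hgH⟩ := ha {X, Y, W}
  have h1 := hgH X (by simp)
  have h2 := hgH Y (by simp)
  have h3 := hgH W (by simp)
  refine ⟨g * X, g * Y, g * W, ρ, p1_mul hg hX.1, p1_mul hg hY.1, p1_mul hg hW.1, hρ, ?_, ?_, ?_⟩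
  · rw [h1, h2, hX.2, hY.2]
  · rw [h1, h3, hX.2, hW.2]
  · linear_combination g * hXY

/-- a stream with all finite products in a good set -/
theorem exists_stream (J : ℕ) {κ : Type} (e : ℤ → κ) (R : Finset κ)
    (h : ∀ H : Finset ℤ, (∀ h ∈ H, P1 J h) → ∃ g, P1 J g ∧ ∀ h ∈ H, e (g * h) ∈ R) :
    ∃ a : Stream' ℤ, ∀ m ∈ Hindman.FP a, P1 J m ∧ e m ∈ R := by
  classical
  have h' : ∀ H : Finset ℤ, ∃ g, (∀ h ∈ H, P1 J h) → P1 J g ∧ ∀ h ∈ H, e (g * h) ∈ R := by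
    intro H
    by_cases hH : ∀ h ∈ H, P1 J h
    · obtain ⟨g, hg⟩ := h H hH
      exact ⟨g, fun _ => hg⟩
    · exact ⟨1, fun h => absurd h hH⟩
  choose pick hpick using h'
  let Hs : ℕ → Finset ℤ := fun n => Nat.rec {1} (fun _ H => H ∪ H.image (pick H * ·)) n
  have hHs0 : Hs 0 = {1} := rfl
  have hHsS : ∀ n, Hs (n + 1) = Hs n ∪ (Hs n).image (pick (Hs n) * ·) := fun n => rfl
  have hpos : ∀ n, ∀ x ∈ Hs n, P1 J x := by
    intro n
    induction n with
    | zero =>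
      intro x hx
      rw [hHs0, Finset.mem_singleton] at hx
      rw [hx]
      exact (p1_one J)
    | succ n ih =>
      intro x hx
      rw [hHsS, Finset.mem_union, Finset.mem_image] at hx
      rcases hx with hx | ⟨y, hy, rfl⟩
      · exact ih x hx
      · exact p1_mul (hpick _ ih).1 (ih y hy)
  let a : Stream' ℤ := fun n => pick (Hs n)
  have key : ∀ (s : Stream' ℤ) (m : ℤ), m ∈ Hindman.FP s → ∀ n, s = a.drop n →
      ∀ x ∈ Hs n, P1 J (x * m) ∧ e (x * m) ∈ R := by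
    intro s m hm
    induction hm with
    | head' s =>
      intro n hs x hx
      have h1 : s.head = pick (Hs n) := by
        rw [hs]
        simp [Stream'.head, Stream'.drop, a, Stream'.get]
      rw [h1, mul_comm]
      exact ⟨p1_mul (hpick _ (hpos n)).1 (hpos n x hx), (hpick _ (hpos n)).2 x hx⟩
    | tail' s m _ ih =>
      intro n hs x hx
      refine ih (n + 1) ?_ x ?_
      · rw [hs]
        exact Stream'.tail_drop'
      · rw [hHsS]
        exact Finset.mem_union_left _ hx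
    | cons' s m _ ih =>
      intro n hs x hx
      have h1 : s.head = pick (Hs n) := by
        rw [hs]
        simp [Stream'.head, Stream'.drop, a, Stream'.get]
      rw [h1]
      have h2 := ih (n + 1) (by
        rw [hs]
        exact Stream'.tail_drop') (pick (Hs n) * x) (by
          rw [hHsS]
          exact Finset.mem_union_right _ (Finset.mem_image_of_mem _ hx))
      have h3 : x * (pick (Hs n) * m) = pick (Hs n) * x * m := by ring
      rw [h3]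
      exact h2
  refine ⟨a, fun m hm => ?_⟩
  have h1 := key a m hm 0 (by rfl) 1 (by rw [hHs0]; exact Finset.mem_singleton_self _)
  rwa [one_mul] at h1

theorem p1_prod (J : ℕ) {b : Stream' ℤ} (hb : ∀ m ∈ Hindman.FP b, P1 J m) (s : Finset ℕ) :
    P1 J (∏ j ∈ s, b.get j) := by
  classical
  rcases s.eq_empty_or_nonempty with rfl | h
  · rw [Finset.prod_empty]
    exact (p1_one J)
  · exact hb _ (Hindman.FP.finsetProd b s h)

/-- STEP C -/
theorem full_of_free (n A b₀ J : ℕ) (hfree : SFree n A b₀ J) : S_full n A b₀ := by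
  classical
  intro κ _ c
  -- the universal system of solutions
  have h1 : ∀ SS : Finset (Set ℤ), ∃ X Y W ρ : ℤ, P1 J X ∧ P1 J Y ∧ P1 J W ∧ 0 < ρ ∧
      (∀ S ∈ SS, (X ∈ S ↔ Y ∈ S)) ∧ (∀ S ∈ SS, (X ∈ S ↔ W ∈ S)) ∧
      (A : ℤ) * X + b₀ * Y = W * ρ ^ n := by
    intro SS
    obtain ⟨X, Y, W, ρ, hX, hY, hW, hρ, hXY, hXW, heq⟩ := hfree (SS → Prop) (fun x S => x ∈ S.1)
    refine ⟨X, Y, W, ρ, hX, hY, hW, hρ, fun S hS => ?_, fun S hS => ?_, heq⟩
    · exact iff_of_eq (congrFun hXY ⟨S, hS⟩)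
    · exact iff_of_eq (congrFun hXW ⟨S, hS⟩)
  choose X Y W ρ hX hY hW hρ hXY hXW heq using h1
  let U : Ultrafilter (Finset (Set ℤ)) := Ultrafilter.of atTop
  have hU : ∀ S : Set ℤ, ∀ᶠ SS in (U : Filter (Finset (Set ℤ))), S ∈ SS := by
    intro S
    have h3 : ∀ᶠ SS in (atTop : Filter (Finset (Set ℤ))), ({S} : Finset (Set ℤ)) ≤ SS :=
      eventually_ge_atTop _
    have h4 : ∀ᶠ SS in (U : Filter (Finset (Set ℤ))), ({S} : Finset (Set ℤ)) ≤ SS :=
      Ultrafilter.of_le _ h3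
    exact h4.mono fun SS h => h (Finset.mem_singleton_self S)
  choose e he using fun g : ℤ => ulim U (fun SS => c (g * ρ SS))
  obtain ⟨k', R, -, ha, hb, hc⟩ := limcol J e
  obtain ⟨a, haFP⟩ := exists_stream J e R hc
  obtain ⟨C, hC, b, hbC⟩ := Hindman.FP_partition_regular a
    ((fun i : κ => {x : ℤ | P1 J x ∧ e x = i}) '' (R : Set κ)) (R.finite_toSet.image _) (by
      intro m hm
      obtain ⟨h1, h2⟩ := haFP m hm
      exact ⟨_, ⟨e m, h2, rfl⟩, h1, rfl⟩)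
  obtain ⟨i, hi, rfl⟩ := hC
  have hbP : ∀ m ∈ Hindman.FP b, P1 J m := fun m hm => (hbC hm).1
  have hbe : ∀ m ∈ Hindman.FP b, e m = i := fun m hm => (hbC hm).2
  obtain ⟨F, hF, hF2⟩ := hb i hi
  let v : ℕ → ℤ := fun l => ∏ j ∈ Finset.range l, b.get j
  have hv : ∀ l, P1 J (v l) := fun l => p1_prod J hbP _
  have h2 : ∀ l, ∃ f ∈ F, ∀ᶠ SS in (U : Filter (Finset (Set ℤ))), k' (f * (v l ^ n * X SS)) = i := by
    intro l
    exact ulim_finset U F (fun f SS => k' (f * (v l ^ n * X SS)) = i)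
      (fun SS => hF2 _ (p1_mul (p1_pow (hv l) n) (hX SS)))
  choose f hfF hfU using h2
  -- pigeonhole
  obtain ⟨l, l', hll, hff⟩ : ∃ l l' : ℕ, l < l' ∧ f l = f l' := by
    obtain ⟨l, l', hne, hfl⟩ := Finite.exists_ne_map_eq_of_infinite (fun l : ℕ => (⟨f l, hfF l⟩ : F))
    have h3 : f l = f l' := congrArg Subtype.val hfl
    rcases lt_or_gt_of_ne hne with h | h
    · exact ⟨l, l', h, h3⟩
    · exact ⟨l', l, h, h3.symm⟩
  let r : ℤ := ∏ j ∈ Finset.Ico l l', b.get j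
  have hrFP : r ∈ Hindman.FP b := Hindman.FP.finsetProd b _ (Finset.nonempty_Ico.2 hll)
  have hvr : v l' = v l * r := by
    have := Finset.prod_range_mul_prod_Ico (fun j => b.get j) hll.le
    exact this.symm
  have hre : ∀ᶠ SS in (U : Filter (Finset (Set ℤ))), c (r * ρ SS) = i := by
    have h3 := he r
    rw [hbe r hrFP] at h3
    exact h3
  let T1 : Set ℤ := {x | k' (f l * (v l ^ n * x)) = i}
  let T2 : Set ℤ := {x | k' (f l * (v l' ^ n * x)) = i}
  have hfU' := hfU l'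
  rw [← hff] at hfU'
  obtain ⟨SS, hS1, hS2, hS3, hS4, hS5⟩ := ((hU T1).and ((hU T2).and ((hfU l).and (hfU'.and hre)))).exists
  have hWT : W SS ∈ T1 := (hXW SS T1 hS1).1 hS3
  have hYT : Y SS ∈ T2 := (hXY SS T2 hS2).1 hS4
  have hXT : X SS ∈ T2 := hS4
  set w : ℤ := f l * (v l ^ n * W SS) with hw
  set y : ℤ := f l * (v l' ^ n * Y SS) with hy
  set x : ℤ := f l * (v l' ^ n * X SS) with hx
  have hwk : k' w = i := hWT
  have hyk : k' y = i := hYT
  have hxk : k' x = i := hXT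
  have hwP : P1 J w := p1_mul (hF _ (hfF l)) (p1_mul (p1_pow (hv l) n) (hW SS))
  have hyP : P1 J y := p1_mul (hF _ (hfF l)) (p1_mul (p1_pow (hv l') n) (hY SS))
  have hxP : P1 J x := p1_mul (hF _ (hfF l)) (p1_mul (p1_pow (hv l') n) (hX SS))
  have hrP : P1 J r := hbP r hrFP
  obtain ⟨z, hz⟩ : ∃ z : ℤ, z = r * ρ SS := ⟨_, rfl⟩
  have hzP : 0 < z := by
    rw [hz]
    exact mul_pos hrP.1 (hρ SS)
  have heqn : (A : ℤ) * x + b₀ * y = w * z ^ n := by
    have h3 := heq SS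
    rw [hz, hx, hy, hw, hvr]
    rw [mul_pow, mul_pow]
    linear_combination (f l * (v l ^ n * r ^ n)) * h3
  -- colours
  obtain ⟨g, hg, hgH⟩ := ha {w, x, y}
  have hgw : e (g * w) = i := (hgH w (by simp)).trans hwk
  have hgx : e (g * x) = i := (hgH x (by simp)).trans hxk
  have hgy : e (g * y) = i := (hgH y (by simp)).trans hyk
  obtain ⟨SS', hS6, hS7, hS8⟩ := ((he (g * w)).and ((he (g * x)).and (he (g * y)))).exists
  rw [hgw] at hS6
  rw [hgx] at hS7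
  rw [hgy] at hS8
  obtain ⟨lam, hlam⟩ : ∃ lam : ℤ, lam = g * ρ SS' := ⟨_, rfl⟩
  have hlamP : 0 < lam := by
    rw [hlam]
    exact mul_pos hg.1 (hρ SS')
  have e1 : ∀ t : ℤ, lam * t = (g * t) * ρ SS' := fun t => by rw [hlam]; ring
  refine ⟨lam * w, lam * x, lam * y, z, mul_pos hlamP hwP.1, mul_pos hlamP hxP.1,
    mul_pos hlamP hyP.1, hzP, ?_, ?_, ?_, ?_⟩
  · rw [e1, e1, hS6, hS7]
  · rw [e1, e1, hS6, hS8]
  · rw [e1, hS6, hz, hS5]
  · linear_combination lam * heqn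

/-- the reduction to the analytic core -/
theorem full_of_core (n A b J : ℕ) (h : S_core n A b J) : S_full n A b :=
  full_of_free n A b J (free_of_core n A b J h)

end Pool.Agent.H40.PZ
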